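import Pool.Agent.Helper20.FC.G5
import Pool.Agent.Helper20.FH.H2

/-!
# Algebras of continuous functions on hemicompact spaces
-/

open Topology Filter Uniformity

namespace Pool.Agent.Helper20.FA

universe u v

theorem continuousMul_CXB {X : Type u} [TopologicalSpace X] {B : Type v} [NormedRing B]
    [NormedAlgebra ℂ B] : ContinuousMul C(X, B) := by
  refine ⟨?_⟩
  rw [continuous_iff_continuousAt]
  rintro ⟨f, g⟩
  rw [ContinuousAt]
  show Tendsto (fun p : C(X, B) × C(X, B) => p.1 * p.2) (𝓝 (f, g)) (𝓝 (f * g))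
  rw [← tendsto_sub_nhds_zero_iff]
  intro U hU
  obtain ⟨K, hK, ε, hε, hKU⟩ := mem_nhds_CX hU
  set Mf := supK K hK f with hMf
  set Mg := supK K hK g with hMg
  have hMf0 : 0 ≤ Mf := apply_nonneg _ _
  have hMg0 : 0 ≤ Mg := apply_nonneg _ _
  set δ : ℝ := min 1 (ε / (Mf + Mg + 2)) with hδ
  have hc : 0 < Mf + Mg + 2 := by linarith
  have hδ0 : 0 < δ := lt_min one_pos (div_pos hε hc)
  have hδ1 : δ ≤ 1 := min_le_left _ _
  have hδ2 : δ * (Mf + Mg + 2) ≤ ε := by
    rw [← le_div_iff₀ hc]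
    exact min_le_right _ _
  have h1 : Continuous fun p : C(X, B) × C(X, B) => supK K hK (p.1 - f) :=
    (continuous_supK K hK).comp (continuous_fst.sub continuous_const)
  have h2 : Continuous fun p : C(X, B) × C(X, B) => supK K hK (p.2 - g) :=
    (continuous_supK K hK).comp (continuous_snd.sub continuous_const)
  have h3 : {p : C(X, B) × C(X, B) | supK K hK (p.1 - f) < δ} ∈ 𝓝 (f, g) := by
    refine (isOpen_lt h1 continuous_const).mem_nhds ?_
    show supK K hK (f - f) < δ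
    rw [sub_self, map_zero]
    exact hδ0
  have h4 : {p : C(X, B) × C(X, B) | supK K hK (p.2 - g) < δ} ∈ 𝓝 (f, g) := by
    refine (isOpen_lt h2 continuous_const).mem_nhds ?_
    show supK K hK (g - g) < δ
    rw [sub_self, map_zero]
    exact hδ0
  rw [Filter.mem_map]
  filter_upwards [h3, h4] with p hp1 hp2
  refine hKU _ fun x hx => ?_
  have h5 : ‖(p.1 - f) x‖ < δ := (le_supK hK _ hx).trans_lt hp1
  have h6 : ‖(p.2 - g) x‖ < δ := (le_supK hK _ hx).trans_lt hp2
  have h7 : ‖f x‖ ≤ Mf := le_supK hK _ hx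
  have h8 : ‖g x‖ ≤ Mg := le_supK hK _ hx
  have h9 : (p.1 * p.2 - f * g) x =
      (p.1 - f) x * (p.2 - g) x + (p.1 - f) x * g x + f x * (p.2 - g) x := by
    show p.1 x * p.2 x - f x * g x =
      (p.1 x - f x) * (p.2 x - g x) + (p.1 x - f x) * g x + f x * (p.2 x - g x)
    noncomm_ring
  rw [h9]
  refine (norm_add_le _ _).trans_lt ?_
  have h10 := norm_add_le ((p.1 - f) x * (p.2 - g) x) ((p.1 - f) x * g x)
  have h18 := norm_mul_le ((p.1 - f) x) ((p.2 - g) x)
  have h19 := norm_mul_le ((p.1 - f) x) (g x)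
  have h20 := norm_mul_le (f x) ((p.2 - g) x)
  have h11 := norm_nonneg ((p.1 - f) x)
  have h12 := norm_nonneg ((p.2 - g) x)
  have h13 := norm_nonneg (g x)
  have h14 := norm_nonneg (f x)
  have h15 : ‖(p.1 - f) x‖ * ‖(p.2 - g) x‖ ≤ δ * 1 :=
    mul_le_mul h5.le (h6.le.trans hδ1) h12 hδ0.le
  have h16 : ‖(p.1 - f) x‖ * ‖g x‖ ≤ δ * Mg := mul_le_mul h5.le h8 h13 hδ0.le
  have h17 : ‖f x‖ * ‖(p.2 - g) x‖ ≤ Mf * δ := mul_le_mul h7 h6.le h12 hMf0
  nlinarith

/-- `X` is hemicompact: there is a sequence of compact subsets such that each compact subset is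
contained in one of them. -/
def Hemicompact (X : Type u) [TopologicalSpace X] : Prop :=
  ∃ K : ℕ → Set X, (∀ n, IsCompact (K n)) ∧ ∀ L, IsCompact L → ∃ n, L ⊆ K n

variable {X : Type u} [TopologicalSpace X] {B : Type v} [NormedRing B] [NormedAlgebra ℂ B]

omit [NormedAlgebra ℂ B] in
theorem countable_H (h : Hemicompact X) : IsCountablyGenerated (𝓤 C(X, B)) := by
  obtain ⟨K, hK, hc⟩ := h
  obtain ⟨V, hV⟩ := exists_antitone_basis (𝓤 B)
  have hKc : ∀ n, IsCompact (Set.accumulate K n) := fun n => by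
    rw [Set.accumulate_def]
    exact (Set.finite_Iic n).isCompact_biUnion fun i _ => hK i
  have hKs : ∀ L, IsCompact L → ∃ n, L ⊆ Set.accumulate K n := fun L hL => by
    obtain ⟨n, hn⟩ := hc L hL
    exact ⟨n, hn.trans (Set.subset_accumulate)⟩
  have h1 : HasAntitoneBasis (𝓤 C(X, B)) fun n =>
      {fg : C(X, B) × C(X, B) | ∀ x ∈ Set.accumulate K n, (fg.1 x, fg.2 x) ∈ V n} :=
    (UniformOnFun.hasAntitoneBasis_uniformity {K | IsCompact K} hKc Set.monotone_accumulate
      (fun L hL => hKs L hL) hV).comap _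
  exact h1.isCountablyGenerated

theorem isFrechet_H [CompactlyCoherentSpace X] [CompleteSpace B] (h : Hemicompact X) :
    IsFrechet C(X, B) := by
  refine ⟨inferInstance, inferInstance, ?_, ?_, ?_⟩
  · exact inferInstanceAs (LocallyConvexSpace ℝ C(X, B))
  · have : IsCountablyGenerated (𝓤 C(X, B)) := countable_H h
    have : T0Space C(X, B) := inferInstance
    exact UniformSpace.metrizableSpace
  · have h0 : IsUniformAddGroup C(X, B) := isUniformAddGroup_CX
    have h1 : IsTopologicalAddGroup.rightUniformSpace C(X, B) =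
        (inferInstanceAs (UniformSpace C(X, B))) :=
      IsUniformAddGroup.rightUniformSpace_eq
    rw [h1]
    infer_instance

theorem sigmaCompact_H (h : Hemicompact X) : SigmaCompactSpace X := by
  obtain ⟨K, hK, hc⟩ := h
  refine ⟨⟨K, hK, ?_⟩⟩
  rw [Set.eq_univ_iff_forall]
  intro x
  obtain ⟨n, hn⟩ := hc {x} isCompact_singleton
  exact Set.mem_iUnion.2 ⟨n, hn rfl⟩

theorem exists_vanish_CX {p : Seminorm ℂ C(X, B)} (hp : Continuous p) :
    ∃ S : Set X, IsCompact S ∧ ∀ a : C(X, B), (∀ x ∈ S, a x = 0) → p a = 0 := by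
  have hU : {f : C(X, B) | p f < 1} ∈ 𝓝 (0 : C(X, B)) := by
    refine (isOpen_lt hp continuous_const).mem_nhds ?_
    show p 0 < 1
    rw [map_zero]
    exact one_pos
  obtain ⟨S, hS, ε, hε, hSU⟩ := mem_nhds_CX hU
  refine ⟨S, hS, fun a ha => ?_⟩
  by_contra h0
  have h5 : 0 < p a := lt_of_le_of_ne (apply_nonneg p _) (Ne.symm h0)
  have h6 : p ((((p a)⁻¹ : ℝ) : ℂ) • a) < 1 := by
    refine hSU _ fun x hx => ?_
    rw [ContinuousMap.smul_apply, ha x hx, smul_zero, norm_zero]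
    exact hε
  rw [map_smul_eq_mul, Complex.norm_real, Real.norm_of_nonneg (by positivity),
    inv_mul_cancel₀ h5.ne'] at h6
  exact lt_irrefl _ h6

theorem exists_sep (B : Type v) [NormedRing B] [NormedAlgebra ℂ B] [CompletelyRegularSpace X]
    {K : Set X} (hK : IsClosed K) {x : X} (hx : x ∉ K) :
    ∃ a : C(X, B), a x = 1 ∧ ∀ z ∈ K, a z = 0 := by
  obtain ⟨f, hf, hfx, hfK⟩ := CompletelyRegularSpace.completely_regular x K hK hx
  refine ⟨⟨fun z => ((1 - (f z : ℝ) : ℝ) : ℂ) • (1 : B), by fun_prop⟩, ?_, fun z hz => ?_⟩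
  · show ((1 - (f x : ℝ) : ℝ) : ℂ) • (1 : B) = 1
    rw [hfx]
    simp
  · show ((1 - (f z : ℝ) : ℝ) : ℂ) • (1 : B) = 0
    rw [hfK hz]
    simp

end Pool.Agent.Helper20.FA
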