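import Pool.Agent.Helper20.FH.H1
import Pool.Agent.Helper20.FI.I0
import Pool.Agent.Helper20.FK.Dual

/-!
# Modules of sequences over algebras of continuous functions
-/

open Topology Filter Uniformity

namespace Pool.Agent.Helper20.FA

universe u

section

variable (B : Type u) [NormedRing B] [NormedAlgebra ℂ B]

/-- Bounded sequences in `B`. -/
abbrev BB : Type u := BoundedContinuousFunction ℕ B

/-- Sequences tending to zero. -/
def c0B : Submodule ℂ (BB B) where
  carrier := {f | Tendsto (fun n => f n) atTop (𝓝 0)}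
  add_mem' := by
    intro f g hf hg
    have h1 := Tendsto.add hf hg
    rw [add_zero] at h1
    exact h1
  zero_mem' := tendsto_const_nhds
  smul_mem' := by
    intro r f hf
    have h1 := Tendsto.const_smul hf r
    rw [smul_zero] at h1
    exact h1

end

variable {B : Type u} [NormedRing B] [NormedAlgebra ℂ B]

/-- A bounded sequence. -/
noncomputable def mkBB (f : ℕ → B) (C : ℝ) (h : ∀ n, ‖f n‖ ≤ C) : BB B :=
  BoundedContinuousFunction.ofNormedAddCommGroup f continuous_of_discreteTopology C h

theorem mem_c0B {f : BB B} : f ∈ c0B B ↔ Tendsto (fun n => f n) atTop (𝓝 0) := Iff.rfl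

theorem mem_c0B_iff {f : BB B} : f ∈ c0B B ↔ ∀ ε : ℝ, 0 < ε → ∀ᶠ n in atTop, ‖f n‖ < ε := by
  rw [mem_c0B, tendsto_zero_iff_norm_tendsto_zero]
  constructor
  · intro h ε hε
    exact h.eventually (gt_mem_nhds hε)
  · intro h
    rw [Metric.tendsto_nhds]
    intro ε hε
    filter_upwards [h ε hε] with n hn
    rw [dist_zero_right, norm_norm]
    exact hn

theorem isClosed_c0B : IsClosed (c0B B : Set (BB B)) := by
  rw [← isSeqClosed_iff_isClosed]
  intro u f hu hf
  show f ∈ c0B B
  rw [mem_c0B_iff]
  intro ε hε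
  rw [Metric.tendsto_atTop] at hf
  obtain ⟨k, hk⟩ := hf (ε / 2) (half_pos hε)
  have h1 : ∀ᶠ n in atTop, ‖u k n‖ < ε / 2 := mem_c0B_iff.1 (hu k) _ (half_pos hε)
  filter_upwards [h1] with n hn
  have h2 := hk k le_rfl
  rw [dist_eq_norm] at h2
  have h3 : ‖(u k - f) n‖ ≤ ‖u k - f‖ := (u k - f).norm_coe_le_norm n
  have h4 : ‖f n‖ ≤ ‖u k n‖ + ‖(u k - f) n‖ := by
    have h5 := norm_sub_le (u k n) ((u k - f) n)
    have h6 : u k n - (u k - f) n = f n := by
      show u k n - (u k n - f n) = f n
      abel
    rwa [h6] at h5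
  linarith

instance [CompleteSpace B] : CompleteSpace (c0B B) := isClosed_c0B.completeSpace_coe

theorem mul_mem_c0B (w : BB B) {m : BB B} (hm : m ∈ c0B B) : w * m ∈ c0B B := by
  rw [mem_c0B_iff] at hm ⊢
  intro ε hε
  have hc : 0 < ‖w‖ + 1 := by positivity
  filter_upwards [hm (ε / (‖w‖ + 1)) (div_pos hε hc)] with n hn
  rw [lt_div_iff₀ hc] at hn
  have h1 : ‖(w * m) n‖ ≤ ‖w n‖ * ‖m n‖ := norm_mul_le (w n) (m n)
  refine h1.trans_lt ?_
  have h2 := w.norm_coe_le_norm n
  have h3 := norm_nonneg (m n)
  nlinarith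

theorem mul_mem_c0B' {w : BB B} (hw : w ∈ c0B B) (m : BB B) : w * m ∈ c0B B := by
  rw [mem_c0B_iff] at hw ⊢
  intro ε hε
  have hc : 0 < ‖m‖ + 1 := by positivity
  filter_upwards [hw (ε / (‖m‖ + 1)) (div_pos hε hc)] with n hn
  rw [lt_div_iff₀ hc] at hn
  have h1 : ‖(w * m) n‖ ≤ ‖w n‖ * ‖m n‖ := norm_mul_le (w n) (m n)
  refine h1.trans_lt ?_
  have h2 := m.norm_coe_le_norm n
  have h3 := norm_nonneg (w n)
  nlinarith

/-- The row `j`. -/
noncomputable def inj (B : Type u) [NormedRing B] [NormedAlgebra ℂ B] (j : ℕ) :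
    BB B →L[ℂ] BB B :=
  LinearMap.mkContinuous
    { toFun := fun b => mkBB (fun i => if (Nat.unpair i).1 = j then b (Nat.unpair i).2 else 0) ‖b‖
        (fun i => by
          split_ifs
          · exact b.norm_coe_le_norm _
          · rw [norm_zero]
            exact norm_nonneg _)
      map_add' := fun b c => by
        ext i
        show (if (Nat.unpair i).1 = j then b (Nat.unpair i).2 + c (Nat.unpair i).2 else 0) =
          (if (Nat.unpair i).1 = j then b (Nat.unpair i).2 else 0) +
          (if (Nat.unpair i).1 = j then c (Nat.unpair i).2 else 0)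
        split_ifs
        · rfl
        · rw [add_zero]
      map_smul' := fun r b => by
        ext i
        show (if (Nat.unpair i).1 = j then r • b (Nat.unpair i).2 else 0) =
          r • (if (Nat.unpair i).1 = j then b (Nat.unpair i).2 else 0)
        split_ifs
        · rfl
        · rw [smul_zero] } 1
    (fun b => by
      rw [one_mul]
      refine (BoundedContinuousFunction.norm_le (norm_nonneg b)).2 fun i => ?_
      show ‖if (Nat.unpair i).1 = j then b (Nat.unpair i).2 else 0‖ ≤ ‖b‖
      split_ifs
      · exact b.norm_coe_le_norm _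
      · rw [norm_zero]
        exact norm_nonneg _)

theorem inj_apply (j : ℕ) (b : BB B) (i : ℕ) :
    inj B j b i = if (Nat.unpair i).1 = j then b (Nat.unpair i).2 else 0 := rfl

theorem inj_mem (j : ℕ) {c : BB B} (hc : c ∈ c0B B) : inj B j c ∈ c0B B := by
  rw [mem_c0B_iff] at hc ⊢
  intro ε hε
  obtain ⟨N, hN⟩ := eventually_atTop.1 (hc ε hε)
  have h1 : (Nat.pair j '' Set.Iio N).Finite := (Set.finite_Iio N).image _
  obtain ⟨M, hM⟩ := h1.bddAbove
  filter_upwards [eventually_gt_atTop M] with i hi
  rw [inj_apply]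
  split_ifs with h2
  · refine hN _ ?_
    by_contra h3
    push Not at h3
    have h4 : Nat.pair j (Nat.unpair i).2 = i := by
      rw [← h2, Nat.pair_unpair]
    have h5 := hM ⟨(Nat.unpair i).2, h3, h4⟩
    omega
  · rw [norm_zero]
    exact hε

variable {X : Type u} [TopologicalSpace X]

/-- The values along a sequence in a compact set. -/
noncomputable def sig (B : Type u) [NormedRing B] [NormedAlgebra ℂ B] {K : Set X}
    (hK : IsCompact K) {y : ℕ → X} (hy : ∀ i, y i ∈ K) : C(X, B) →L[ℂ] BB B where
  toFun := fun a => mkBB (fun i => a (y i)) (supK K hK a) (fun i => le_supK hK a (hy i))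
  map_add' := fun a b => by
    ext i
    rfl
  map_smul' := fun r a => by
    ext i
    rfl
  cont := by
    let f : C(X, B) →+ BB B :=
      { toFun := fun a => mkBB (fun i => a (y i)) (supK K hK a) (fun i => le_supK hK a (hy i))
        map_zero' := by
          ext i
          rfl
        map_add' := fun a b => by
          ext i
          rfl }
    refine continuous_of_continuousAt_zero f ?_
    rw [ContinuousAt, map_zero, tendsto_zero_iff_norm_tendsto_zero]
    have h1 := (continuous_supK (B := B) K hK).tendsto 0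
    rw [map_zero] at h1
    refine squeeze_zero (fun a => norm_nonneg _) (fun a => ?_) h1
    exact (BoundedContinuousFunction.norm_le (apply_nonneg _ _)).2 fun i => le_supK hK a (hy i)

theorem sig_apply {K : Set X} (hK : IsCompact K) {y : ℕ → X} (hy : ∀ i, y i ∈ K)
    (a : C(X, B)) (i : ℕ) : sig B hK hy a i = a (y i) := rfl

theorem sig_mul {K : Set X} (hK : IsCompact K) {y : ℕ → X} (hy : ∀ i, y i ∈ K)
    (a b : C(X, B)) : sig B hK hy (a * b) = sig B hK hy a * sig B hK hy b := by
  ext i
  rfl

/-- The constant sequence. -/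
noncomputable def evX (B : Type u) [NormedRing B] [NormedAlgebra ℂ B] (x : X) :
    C(X, B) →L[ℂ] BB B := sig B (isCompact_singleton (x := x)) (y := fun _ => x) (fun _ => rfl)

theorem evX_apply (x : X) (a : C(X, B)) (i : ℕ) : evX B x a i = a x := rfl

/-- The second part of the action. -/
noncomputable def dif {L : Set X} (hL : IsCompact L) {s : ℕ → X} (hs : ∀ i, s i ∈ L) (x : X)
    (j : ℕ) (a : C(X, B)) (b : BB B) : BB B := inj B j ((sig B hL hs a - evX B x a) * b)

section

variable {L : Set X} (hL : IsCompact L) {s : ℕ → X} (hs : ∀ i, s i ∈ L) (x : X) (j : ℕ)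

theorem dif_apply (a : C(X, B)) (b : BB B) (i : ℕ) : dif hL hs x j a b i =
      if (Nat.unpair i).1 = j then (a (s (Nat.unpair i).2) - a x) * b (Nat.unpair i).2
        else 0 := rfl

theorem dif_add (a a' : C(X, B)) (b : BB B) :
    dif hL hs x j (a + a') b = dif hL hs x j a b + dif hL hs x j a' b := by
  unfold dif
  rw [← map_add, map_add, map_add, ← add_mul]
  congr 2
  abel

theorem dif_smul (r : ℂ) (a : C(X, B)) (b : BB B) :
    dif hL hs x j (r • a) b = r • dif hL hs x j a b := by
  unfold dif
  rw [← map_smul, map_smul, map_smul, ← smul_sub, smul_mul_assoc]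

theorem dif_add' (a : C(X, B)) (b b' : BB B) :
    dif hL hs x j a (b + b') = dif hL hs x j a b + dif hL hs x j a b' := by
  unfold dif
  rw [← map_add, mul_add]

theorem dif_smul' (r : ℂ) (a : C(X, B)) (b : BB B) :
    dif hL hs x j a (r • b) = r • dif hL hs x j a b := by
  unfold dif
  rw [← map_smul, mul_smul_comm]

theorem dif_mul {K : Set X} (hK : IsCompact K) {y : ℕ → X} (hy : ∀ i, y i ∈ K)
    (hyj : ∀ n, y (Nat.pair j n) = x) (a a' : C(X, B)) (b : BB B) :
    dif hL hs x j (a * a') b = sig B hK hy a * dif hL hs x j a' b +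
      dif hL hs x j a (sig B hL hs a' * b) := by
  ext i
  have h1 : ∀ w w' : BB B, (w * w') i = w i * w' i := fun _ _ => rfl
  rw [BoundedContinuousFunction.add_apply, h1, dif_apply, dif_apply, dif_apply]
  split_ifs with h
  · have h2 : y i = x := by
      have h3 := hyj (Nat.unpair i).2
      rwa [← h, Nat.pair_unpair] at h3
    have h4 : (sig B hL hs a' * b) (Nat.unpair i).2 =
      a' (s (Nat.unpair i).2) * b (Nat.unpair i).2 := rfl
    rw [sig_apply, h2, h4, ContinuousMap.mul_apply, ContinuousMap.mul_apply]
    noncomm_ring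
  · rw [mul_zero, add_zero]

variable {x}

theorem dif_mem (hsx : Tendsto s atTop (𝓝 x)) (a : C(X, B)) (b : BB B) :
    dif hL hs x j a b ∈ c0B B := by
  refine inj_mem j (mul_mem_c0B' ?_ b)
  rw [mem_c0B]
  have h1 : Tendsto (fun n => a (s n)) atTop (𝓝 (a x)) := (a.continuous.tendsto x).comp hsx
  have h2 := h1.sub_const (a x)
  rw [sub_self] at h2
  exact h2

variable (x)

theorem continuous_dif : Continuous fun p : C(X, B) × BB B => dif hL hs x j p.1 p.2 := by
  refine (inj B j).continuous.comp ?_
  refine Continuous.mul ?_ continuous_snd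
  exact ((sig B hL hs).continuous.comp continuous_fst).sub
    ((evX B x).continuous.comp continuous_fst)

end

/-- The module of null sequences at the points `y i`. -/
noncomputable def nulM [CompleteSpace B] {K : Set X} (hK : IsCompact K) {y : ℕ → X}
    (hy : ∀ i, y i ∈ K) : FMod C(X, B) where
  X := c0B B
  fre := IsFrechet.of_normed
  act := LinearMap.mk₂ ℂ (fun a m => ⟨sig B hK hy a * m.1, mul_mem_c0B _ m.2⟩)
    (fun a b m => Subtype.ext (by
      show sig B hK hy (a + b) * m.1 = sig B hK hy a * m.1 + sig B hK hy b * m.1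
      rw [map_add, add_mul]))
    (fun r a m => Subtype.ext (by
      show sig B hK hy (r • a) * m.1 = r • (sig B hK hy a * m.1)
      rw [map_smul, smul_mul_assoc]))
    (fun a m m' => Subtype.ext (mul_add _ _ _))
    (fun r a m => Subtype.ext (mul_smul_comm _ _ _))
  act_mul := by
    intro a b m
    refine Subtype.ext ?_
    show sig B hK hy (a * b) * m.1 = sig B hK hy a * (sig B hK hy b * m.1)
    rw [sig_mul, mul_assoc]
  act_cont := by
    refine Continuous.subtype_mk ?_ _
    exact ((sig B hK hy).continuous.comp continuous_fst).mul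
      (continuous_subtype_val.comp continuous_snd)

/-- The extension of the module of null sequences by the bounded sequences. -/
noncomputable def extM [CompleteSpace B] {K : Set X} (hK : IsCompact K) {y : ℕ → X}
    (hy : ∀ i, y i ∈ K) {L : Set X} (hL : IsCompact L) {s : ℕ → X} (hs : ∀ i, s i ∈ L) {x : X}
    (hsx : Tendsto s atTop (𝓝 x)) {j : ℕ} (hyj : ∀ n, y (Nat.pair j n) = x) :
    FMod C(X, B) where
  X := BB B × c0B B
  fre := IsFrechet.of_normed
  act := LinearMap.mk₂ ℂ (fun a v => (sig B hL hs a * v.1,
      ⟨sig B hK hy a * v.2.1 + dif hL hs x j a v.1,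
        (c0B B).add_mem (mul_mem_c0B _ v.2.2) (dif_mem hL hs j hsx a v.1)⟩))
    (fun a b v => by
      refine Prod.ext ?_ (Subtype.ext ?_)
      · show sig B hL hs (a + b) * v.1 = sig B hL hs a * v.1 + sig B hL hs b * v.1
        rw [map_add, add_mul]
      · show sig B hK hy (a + b) * v.2.1 + dif hL hs x j (a + b) v.1 =
          (sig B hK hy a * v.2.1 + dif hL hs x j a v.1) +
          (sig B hK hy b * v.2.1 + dif hL hs x j b v.1)
        rw [dif_add, map_add, add_mul]
        abel)
    (fun r a v => by
      refine Prod.ext ?_ (Subtype.ext ?_)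
      · show sig B hL hs (r • a) * v.1 = r • (sig B hL hs a * v.1)
        rw [map_smul, smul_mul_assoc]
      · show sig B hK hy (r • a) * v.2.1 + dif hL hs x j (r • a) v.1 =
          r • (sig B hK hy a * v.2.1 + dif hL hs x j a v.1)
        rw [dif_smul, map_smul, smul_mul_assoc, smul_add])
    (fun a v w => by
      refine Prod.ext ?_ (Subtype.ext ?_)
      · show sig B hL hs a * (v.1 + w.1) = sig B hL hs a * v.1 + sig B hL hs a * w.1
        rw [mul_add]
      · show sig B hK hy a * (v.2.1 + w.2.1) + dif hL hs x j a (v.1 + w.1) =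
          (sig B hK hy a * v.2.1 + dif hL hs x j a v.1) +
          (sig B hK hy a * w.2.1 + dif hL hs x j a w.1)
        rw [dif_add', mul_add]
        abel)
    (fun r a v => by
      refine Prod.ext ?_ (Subtype.ext ?_)
      · show sig B hL hs a * (r • v.1) = r • (sig B hL hs a * v.1)
        rw [mul_smul_comm]
      · show sig B hK hy a * (r • v.2.1) + dif hL hs x j a (r • v.1) =
          r • (sig B hK hy a * v.2.1 + dif hL hs x j a v.1)
        rw [dif_smul', mul_smul_comm, smul_add])
  act_mul := by
    intro a b v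
    refine Prod.ext ?_ (Subtype.ext ?_)
    · show sig B hL hs (a * b) * v.1 = sig B hL hs a * (sig B hL hs b * v.1)
      rw [sig_mul, mul_assoc]
    · show sig B hK hy (a * b) * v.2.1 + dif hL hs x j (a * b) v.1 =
        sig B hK hy a * (sig B hK hy b * v.2.1 + dif hL hs x j b v.1) +
        dif hL hs x j a (sig B hL hs b * v.1)
      rw [dif_mul hL hs x j hK hy hyj, sig_mul, mul_assoc, mul_add]
      abel
  act_cont := by
    refine Continuous.prodMk ?_ (Continuous.subtype_mk ?_ _)
    · exact ((sig B hL hs).continuous.comp continuous_fst).mul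
        (continuous_fst.comp continuous_snd)
    · refine Continuous.add ?_ ?_
      · exact ((sig B hK hy).continuous.comp continuous_fst).mul
          (continuous_subtype_val.comp (continuous_snd.comp continuous_snd))
      · exact (continuous_dif hL hs x j).comp
          (by fun_prop : Continuous fun p : C(X, B) × (BB B × c0B B) => (p.1, p.2.1))

end Pool.Agent.Helper20.FA
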