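import Pool.Agent.Helper20.FI.I1

/-!
# Continuous functions on spaces that are not locally compact
-/

open Topology Filter Uniformity

namespace Pool.Agent.Helper20.FA

universe u

variable {X : Type u} [TopologicalSpace X] {B : Type u} [NormedRing B] [NormedAlgebra ℂ B]

/-- Scalar sequences as sequences in `B`. -/
noncomputable def emb (B : Type u) [NormedRing B] [NormedAlgebra ℂ B] : Bd →L[ℂ] BB B :=
  LinearMap.mkContinuous
    { toFun := fun b => mkBB (fun i => b i • (1 : B)) (‖(1 : B)‖ * ‖b‖) (fun i => by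
        rw [norm_smul, mul_comm]
        exact mul_le_mul_of_nonneg_left (b.norm_coe_le_norm i) (norm_nonneg _))
      map_add' := fun b c => by
        ext i
        show (b i + c i) • (1 : B) = b i • (1 : B) + c i • (1 : B)
        rw [add_smul]
      map_smul' := fun r b => by
        ext i
        show (r * b i) • (1 : B) = r • (b i • (1 : B))
        rw [mul_smul] } ‖(1 : B)‖
    (fun b => by
      refine (BoundedContinuousFunction.norm_le (by positivity)).2 fun i => ?_
      show ‖b i • (1 : B)‖ ≤ ‖(1 : B)‖ * ‖b‖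
      rw [norm_smul, mul_comm]
      exact mul_le_mul_of_nonneg_left (b.norm_coe_le_norm i) (norm_nonneg _))

theorem emb_apply (b : Bd) (i : ℕ) : emb B b i = b i • (1 : B) := rfl

theorem emb_unB (k n : ℕ) : emb B (unB k) n = if n = k then 1 else 0 := by
  rw [emb_apply, unB_apply]
  split_ifs
  · rw [one_smul]
  · rw [zero_smul]

theorem emb_mem (k : ℕ) : emb B (unB k) ∈ c0B B := by
  rw [mem_c0B_iff]
  intro ε hε
  filter_upwards [eventually_gt_atTop k] with n hn
  rw [emb_unB, if_neg hn.ne', norm_zero]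
  exact hε

theorem exists_phi [Nontrivial B] : ∃ φ : B →L[ℂ] ℂ, φ 1 = 1 := by
  obtain ⟨g, -, hg⟩ := exists_dual_vector ℂ (1 : B) (norm_ne_zero_iff.2 one_ne_zero)
  have h1 : ((‖(1 : B)‖ : ℝ) : ℂ) ≠ 0 := by
    have h2 : ‖(1 : B)‖ ≠ 0 := norm_ne_zero_iff.2 one_ne_zero
    exact_mod_cast h2
  refine ⟨((‖(1 : B)‖ : ℝ) : ℂ)⁻¹ • g, ?_⟩
  show ((‖(1 : B)‖ : ℝ) : ℂ)⁻¹ * g 1 = 1
  have h3 : g 1 = ((‖(1 : B)‖ : ℝ) : ℂ) := hg
  rw [h3, inv_mul_cancel₀ h1]

/-- The obstruction. -/
theorem not_all [CompleteSpace B] [Nontrivial B] [T2Space X] [CompletelyRegularSpace X]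
    [CompactlyCoherentSpace X] (hH : Hemicompact X)
    (hFU : ∀ L : Set X, IsCompact L → FrechetUrysohnSpace L)
    (hX : ¬ WeaklyLocallyCompactSpace X)
    (hall : ∀ M : FMod C(X, B), HasInjectiveCoresolution M) : False := by
  have hF : IsFrechet C(X, B) := isFrechet_H hH
  have hCM : ContinuousMul C(X, B) := continuousMul_CXB
  obtain ⟨φ, hφ⟩ := exists_phi (B := B)
  obtain ⟨K0, hK0, hbad⟩ := exists_bad hX
  obtain ⟨K, hK, hc⟩ := hH
  have h1 : ∀ m, ∃ x ∈ K0, ∃ L, IsCompact L ∧ ∃ s : ℕ → X, (∀ n, s n ∈ L) ∧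
      (∀ n, s n ∉ K m ∪ K0) ∧ Tendsto s atTop (𝓝 x) := by
    intro m
    obtain ⟨x, hx, L, hL, hxL⟩ := hbad (K m ∪ K0) ((hK m).union hK0) Set.subset_union_right
    exact ⟨x, hx, L, hL, exists_seq hFU hL hxL⟩
  choose xs hxs L hL s hsL hsK hsx using h1
  let y : ℕ → X := fun i => xs (Nat.unpair i).1
  have hy : ∀ i, y i ∈ K0 := fun i => hxs _
  have hyj : ∀ j n, y (Nat.pair j n) = xs j := by
    intro j n
    show xs (Nat.unpair (Nat.pair j n)).1 = xs j
    rw [Nat.unpair_pair]
  obtain ⟨J, hJ, e, d, he, -, -, -, sJ, t, hse, -⟩ := hall (nulM hK0 hy)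
  let sJ' : (J 0).X →L[ℂ] c0B B := sJ
  let G : C(X, B) →ₗ[ℂ] (J 0).X →ₗ[ℂ] c0B B := (J 0).act.compr₂ sJ'.toLinearMap
  have hG : ∀ a v, G a v = sJ' ((J 0).act a v) := fun a v => rfl
  obtain ⟨p, q, hp, hq, hpq⟩ := bil_bound G (normSeminorm ℂ (c0B B))
    (continuous_norm.comp (sJ'.continuous.comp (J 0).act_cont))
  obtain ⟨S, hS, hSp⟩ := exists_vanish_CX hp
  obtain ⟨m, hm⟩ := hc S hS
  let V : FMod C(X, B) := extM hK0 hy (hL m) (hsL m) (hsx m) (hyj m)
  let N : Submodule ℂ V.X := LinearMap.ker (ContinuousLinearMap.fst ℂ (BB B) (c0B B)).toLinearMap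
  have hN : ∀ z : V.X, z ∈ N ↔ z.1 = 0 := fun z => Iff.rfl
  have hNc : IsClosed (N : Set V.X) :=
    isClosed_eq (by fun_prop : Continuous fun z : BB B × c0B B => z.1) continuous_const
  let e' : c0B B →L[ℂ] (J 0).X := e
  let τ : V.X →L[ℂ] (J 0).X := e'.comp (ContinuousLinearMap.snd ℂ (BB B) (c0B B))
  have hτ : ∀ z : V.X, τ z = e' z.2 := fun z => rfl
  have hact1 : ∀ (a : C(X, B)) (z : V.X), (V.act a z).1 = sig B (hL m) (hsL m) a * z.1 :=
    fun a z => rfl
  have hact2 : ∀ (a : C(X, B)) (z : V.X), (V.act a z).2.1 =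
      sig B hK0 hy a * z.2.1 + dif (hL m) (hsL m) (xs m) m a z.1 := fun a z => rfl
  obtain ⟨Φ, hΦ, hΦN⟩ := exists_hom (hJ 0) N hNc (by
    intro a z hz
    rw [hN] at hz ⊢
    rw [hact1, hz, mul_zero]) τ (by
    intro a z hz
    rw [hN] at hz
    rw [hτ, hτ]
    have h2 : (V.act a z).2 = (nulM hK0 hy).act a z.2 := by
      refine Subtype.ext ?_
      show (V.act a z).2.1 = sig B hK0 hy a * z.2.1
      rw [hact2, hz]
      unfold dif
      rw [mul_zero, map_zero, add_zero]
    rw [h2]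
    exact he a z.2)
  let F : (BB B × c0B B) →L[ℂ] c0B B := sJ'.comp Φ
  have hFΦ : ∀ z : V.X, F z = sJ' (Φ z) := fun z => rfl
  have hF0 : ∀ c : c0B B, F ((0 : BB B), c) = c := by
    intro c
    show sJ' (Φ (show V.X from ((0 : BB B), c))) = c
    rw [hΦN _ rfl]
    exact hse c
  let F1 : Bd →L[ℂ] c0B B := F.comp ((ContinuousLinearMap.inl ℂ (BB B) (c0B B)).comp (emb B))
  have hF1 : ∀ b, F1 b = F (emb B b, 0) := fun b => rfl
  let T : Bd →ₗ[ℂ] (ℕ → ℂ) :=
    { toFun := fun b n => -(φ ((F1 b).1 (Nat.pair m n)))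
      map_add' := fun b c => by
        funext n
        show -(φ ((F1 (b + c)).1 (Nat.pair m n))) = _
        rw [map_add]
        show -(φ ((F1 b).1 (Nat.pair m n) + (F1 c).1 (Nat.pair m n))) =
          -(φ ((F1 b).1 (Nat.pair m n))) + -(φ ((F1 c).1 (Nat.pair m n)))
        rw [map_add]
        ring
      map_smul' := fun r b => by
        funext n
        show -(φ ((F1 (r • b)).1 (Nat.pair m n))) = _
        rw [map_smul]
        show -(φ (r • (F1 b).1 (Nat.pair m n))) = r * -(φ ((F1 b).1 (Nat.pair m n)))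
        rw [map_smul, smul_eq_mul]
        ring }
  have hT : ∀ b n, T b n = -(φ ((F1 b).1 (Nat.pair m n))) := fun b n => rfl
  refine no_projection T (C := ‖φ‖ * ‖F1‖) (by positivity) ?_ ?_ ?_
  · intro b n
    rw [hT, norm_neg]
    have h2 : ‖(F1 b).1 (Nat.pair m n)‖ ≤ ‖(F1 b).1‖ := (F1 b).1.norm_coe_le_norm _
    have h3 : ‖F1 b‖ ≤ ‖F1‖ * ‖b‖ := F1.le_opNorm _
    have h4 : ‖(F1 b).1‖ = ‖F1 b‖ := rfl
    rw [h4] at h2
    calc ‖φ ((F1 b).1 (Nat.pair m n))‖ ≤ ‖φ‖ * ‖(F1 b).1 (Nat.pair m n)‖ := φ.le_opNorm _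
      _ ≤ ‖φ‖ * (‖F1‖ * ‖b‖) := mul_le_mul_of_nonneg_left (h2.trans h3) (norm_nonneg _)
      _ = ‖φ‖ * ‖F1‖ * ‖b‖ := by ring
  · intro b
    have h2 : Tendsto (fun n => (F1 b).1 n) atTop (𝓝 0) := (F1 b).2
    have h3 : Tendsto (fun n => Nat.pair m n) atTop atTop :=
      tendsto_atTop_mono (fun n => Nat.right_le_pair m n) tendsto_id
    have h4 : Tendsto (fun n => φ ((F1 b).1 (Nat.pair m n))) atTop (𝓝 (φ 0)) :=
      (φ.continuous.tendsto 0).comp (h2.comp h3)
    have h5 := h4.neg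
    rw [map_zero, neg_zero] at h5
    exact h5
  · intro k n
    let c : c0B B := ⟨inj B m (emb B (unB k)), inj_mem m (emb_mem k)⟩
    obtain ⟨a, ha1, ha0⟩ := exists_sep B ((hK m).union hK0).isClosed (hsK m k)
    have hxa : a (xs m) = 0 := ha0 _ (Or.inr (hxs m))
    have h2 : V.act a (show V.X from (emb B (unB k), c)) =
        (show V.X from (emb B (unB k), c)) := by
      refine Prod.ext ?_ (Subtype.ext ?_)
      · rw [hact1]
        ext i
        show a (s m i) * emb B (unB k) i = emb B (unB k) i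
        rw [emb_unB]
        split_ifs with hi
        · rw [hi, ha1, one_mul]
        · rw [mul_zero]
      · rw [hact2]
        ext i
        show a (y i) * inj B m (emb B (unB k)) i +
          dif (hL m) (hsL m) (xs m) m a (emb B (unB k)) i = inj B m (emb B (unB k)) i
        rw [ha0 _ (Or.inr (hy i)), zero_mul, zero_add, dif_apply, inj_apply, hxa, sub_zero,
          emb_unB]
        split_ifs with h3 h4
        · rw [h4, ha1, one_mul]
        · rw [mul_zero]
        · rfl
    have h3 : F (emb B (unB k), c) = 0 := by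
      have h4 : F (emb B (unB k), c) = G a (Φ (show V.X from (emb B (unB k), c))) := by
        show sJ' (Φ (show V.X from (emb B (unB k), c))) =
          sJ' ((J 0).act a (Φ (show V.X from (emb B (unB k), c))))
        rw [← hΦ, h2]
      have h5 := hpq a (Φ (show V.X from (emb B (unB k), c)))
      rw [hSp a fun x hx => ha0 x (Or.inl (hm hx)), zero_mul] at h5
      rw [h4]
      exact norm_le_zero_iff.1 h5
    have h4 : F1 (unB k) = -c := by
      have h5 : F (emb B (unB k), c) = F (emb B (unB k), 0) + F (0, c) := by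
        rw [← map_add, Prod.mk_add_mk, add_zero, zero_add]
      rw [h3, hF0, ← hF1] at h5
      exact (neg_eq_of_add_eq_zero_left h5.symm).symm
    rw [hT, h4]
    show -(φ (-(inj B m (emb B (unB k)) (Nat.pair m n)))) = _
    rw [map_neg, neg_neg, inj_apply, Nat.unpair_pair, if_pos rfl, emb_unB]
    split_ifs
    · exact hφ
    · exact map_zero φ

/-- All modules have injective coresolutions only over locally compact spaces. -/
theorem locallyCompact_of_all [CompleteSpace B] [Nontrivial B] [T2Space X]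
    [CompletelyRegularSpace X] [CompactlyCoherentSpace X] (hH : Hemicompact X)
    (hFU : ∀ L : Set X, IsCompact L → FrechetUrysohnSpace L)
    (hall : ∀ M : FMod C(X, B), HasCores M) : LocallyCompactSpace X := by
  by_contra h
  refine not_all hH hFU (fun hW => h ?_) hall
  infer_instance

theorem all_of_locallyCompact [CompleteSpace B] [T2Space X] (hH : Hemicompact X)
    (hL : LocallyCompactSpace X) (M : FMod C(X, B)) : HasCores M := by
  have := sigmaCompact_H hH
  exact hasInjectiveCoresolution_CX M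

end Pool.Agent.Helper20.FA
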